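import Mathlib
import Pool.Agent.W289.ZS.Stm

set_option autoImplicit false

namespace Pool.Agent.W154.ZS

open Finset W289.ZS

universe u

section
variable {G : Type u} [Group G] [Fintype G]

theorem zpowers_pow_coprime (a : G) (k : ℕ) (h : (orderOf a).Coprime k) :
    Subgroup.zpowers (a ^ k) = Subgroup.zpowers a := by
  apply le_antisymm
  · rw [Subgroup.zpowers_le]
    exact Subgroup.pow_mem _ (Subgroup.mem_zpowers a) k
  · rw [Subgroup.zpowers_le]
    obtain ⟨m, hm⟩ := exists_pow_eq_self_of_coprime h.symm
    rw [Subgroup.mem_zpowers_iff]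
    exact ⟨m, by rw [zpow_natCast]; exact hm⟩

theorem totient_prod (n o : ℕ) (hn : n ≠ 0) (ho : o ∣ n) :
    ∏ p ∈ n.primeFactors, Nat.totient (p ^ o.factorization p) = Nat.totient o := by
  have ho0 : o ≠ 0 := by
    rintro rfl
    exact hn (Nat.eq_zero_of_zero_dvd ho)
  have h1 := Nat.multiplicative_factorization Nat.totient
    (fun x y h => Nat.totient_mul h) Nat.totient_one ho0
  rw [h1, Finsupp.prod, Nat.support_factorization]
  symm
  apply Finset.prod_subset (Nat.primeFactors_mono ho hn)
  intro p _ hp2
  rw [← Nat.support_factorization, Finsupp.notMem_support_iff] at hp2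
  rw [hp2, pow_zero, Nat.totient_one]

theorem grp_aux (hT : TaskTau.{u}) [DecidableEq (Subgroup G)] :
    (DG G).Pr ∧ Cpx (DG G) univ (univ.image (tau G)) (tau G 1) ∧
    NN (DG G) univ (univ.image (tau G)) ≤ Nat.card G := by
  classical
  obtain ⟨h1, h2, h3, h4, h5⟩ := hT G
  have hprime : ∀ i : Ix G, (i.1).Prime := fun i => Nat.prime_of_mem_primeFactors i.2
  refine ⟨⟨hprime, fun i j h => Subtype.ext h⟩, ⟨?_, ?_, ?_, ?_, ?_, ?_⟩, ?_⟩
  · exact mem_image_of_mem _ (mem_univ _)
  · intro i _
    rw [h5, orderOf_one, Nat.factorization_one]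
    rfl
  · intro v hv i _ _
    obtain ⟨a, _, rfl⟩ := mem_image.1 hv
    rw [h4]
    exact mem_image_of_mem _ (mem_univ _)
  · intro v _ i hi
    exact absurd (mem_univ i) hi
  · intro v hv i _ hd
    obtain ⟨a, _, rfl⟩ := mem_image.1 hv
    rw [h5] at hd
    rw [h1]
    have hp := hprime i
    have hnd : ¬ i.1 ∣ orderOf a := by
      intro hdv
      have := hp.factorization_pos_of_dvd (orderOf_pos a).ne' hdv
      omega
    have hcop : (orderOf a).Coprime (i.1 ^ (Nat.card G).factorization i.1) :=
      Nat.Coprime.pow_right _ ((Nat.Prime.coprime_iff_not_dvd hp).2 hnd).symm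
    have hdiv : orderOf a ∣ Nat.card G / i.1 ^ (Nat.card G).factorization i.1 := by
      have h6 : orderOf a ∣ Nat.card G := orderOf_dvd_natCard a
      rw [← Nat.ordProj_mul_ordCompl_eq_self (Nat.card G) i.1] at h6
      exact hcop.dvd_of_dvd_mul_left h6
    unfold tau
    rw [orderOf_dvd_iff_pow_eq_one.1 hdiv, Subgroup.zpowers_one_eq_bot]
  · intro v hv i _ hd
    obtain ⟨a, _, rfl⟩ := mem_image.1 hv
    have hp := hprime i
    have e1 : (DG G).par i (tau G a i) = tau G (a ^ i.1) i := by
      rw [← h4]
      unfold Dat.down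
      rw [Function.update_self]
    rw [e1, h5, h5]
    rw [h5] at hd
    have hdv : i.1 ∣ orderOf a := Nat.dvd_of_factorization_pos hd.ne'
    rw [orderOf_pow_of_dvd hp.ne_zero hdv, Nat.factorization_div hdv, hp.factorization]
    simp only [Finsupp.coe_tsub, Pi.sub_apply, Finsupp.single_eq_same]
    omega
  · have hwt : ∀ a : G, wt (DG G) univ (tau G a) = Nat.totient (orderOf a) := by
      intro a
      unfold wt
      have e2 : ∀ i : Ix G, Nat.totient ((DG G).p i ^ (DG G).dep i (tau G a i)) =
          Nat.totient (i.1 ^ (orderOf a).factorization i.1) := by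
        intro i
        rw [h5]
        rfl
      rw [prod_congr rfl (fun i _ => e2 i)]
      rw [← totient_prod (Nat.card G) (orderOf a) Nat.card_pos.ne' (orderOf_dvd_natCard a)]
      exact prod_coe_sort (Nat.card G).primeFactors
        (fun p => Nat.totient (p ^ (orderOf a).factorization p))
    have hfib : ∀ v ∈ univ.image (tau G),
        wt (DG G) univ v ≤ ((univ : Finset G).filter (fun b => tau G b = v)).card := by
      intro v hv
      obtain ⟨a, _, rfl⟩ := mem_image.1 hv
      rw [hwt, Nat.totient_eq_card_coprime]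
      refine card_le_card_of_injOn (fun k => a ^ k) ?_ ?_
      · intro k hk
        rw [mem_coe, mem_filter] at hk
        rw [mem_coe, mem_filter]
        exact ⟨mem_univ _, h3 _ _ (zpowers_pow_coprime a k hk.2)⟩
      · intro k hk l hl hkl
        rw [mem_coe, mem_filter, mem_range] at hk hl
        exact pow_injOn_Iio_orderOf hk.1 hl.1 hkl
    unfold NN
    calc ∑ v ∈ univ.image (tau G), wt (DG G) univ v
        ≤ ∑ v ∈ univ.image (tau G), ((univ : Finset G).filter (fun b => tau G b = v)).card :=
          sum_le_sum hfib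
      _ = (univ : Finset G).card :=
          (card_eq_sum_card_image (tau G) univ).symm
      _ = Nat.card G := by rw [Nat.card_eq_fintype_card, card_univ]

end

theorem grp (hT : TaskTau.{u}) : TaskGroup.{u} := fun _ _ _ _ => grp_aux hT

end Pool.Agent.W154.ZS
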